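import Pool.Agent.W743.HP.Stm

/-!
# HP-BDV: boundary values
-/

set_option autoImplicit false

open Set Filter Topology MeasureTheory

namespace Pool.Agent.W214.HP

open Pool.Agent.W743.HP

/-- the value of `TT (ue i)` -/
theorem ev_TT_ue (w : ℂ) (hw : ‖w‖ ≤ 1) (i : ℕ × ℕ) :
    evE w (TT (ue i)) = 1 / ((4 * (i.1 : ℝ) + i.2 + 1) * (i.2 + 1)) *
      ((1 / 2) ^ (i.2 + 1) - (‖w‖ ^ 2) ^ (i.2 + 1)) * (w ^ (4 * i.1)).re := by
  unfold TT
  rw [lift_ue, map_smul, map_sub, map_smul]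
  unfold evE
  rw [lift_ue, lift_ue, if_pos hw, if_pos hw]
  simp only [smul_eq_mul, mul_zero, pow_zero, one_mul]
  rw [pow_mul]
  ring

theorem ev_one (w : ℂ) (hw : ‖w‖ ≤ 1) : evE w (ue (0, 0)) = 1 := by
  unfold evE
  rw [lift_ue, if_pos hw]
  simp

theorem ev_TT_bd (w : ℂ) (i : ℕ × ℕ) : ‖evE w (TT (ue i))‖ ≤ 2 := by
  have h1 : ‖TT (ue i)‖ ≤ 2 := by
    unfold TT
    rw [lift_ue]
    exact norm_TT_aux i
  have h2 : ‖evE w‖ ≤ 1 := norm_lift_le _ 1 zero_le_one _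
  calc ‖evE w (TT (ue i))‖ ≤ ‖evE w‖ * ‖TT (ue i)‖ := (evE w).le_opNorm _
    _ ≤ 1 * 2 := by gcongr
    _ = 2 := one_mul _

/-- the value of `TT m` as a sum -/
theorem ev_TT (w : ℂ) (m : E) :
    HasSum (fun i => m i * evE w (TT (ue i))) (evE w (TT m)) := by
  have h1 : (evE w).comp TT = lift (fun i => evE w (TT (ue i))) 2 (ev_TT_bd w) := by
    refine L1.ext_ue fun i => ?_
    rw [lift_ue]
    rfl
  have h2 := lift_hasSum (fun i => evE w (TT (ue i))) 2 (ev_TT_bd w) m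
  rw [← h1] at h2
  exact h2

theorem val (m : E) (w : ℂ) (hw : ‖w‖ ^ 2 = 1 / 2) : evE w (ue (0, 0) + TT m) = 1 := by
  have hw1 : ‖w‖ ≤ 1 := by nlinarith [norm_nonneg w]
  have h1 : evE w (TT m) = 0 := by
    refine (ev_TT w m).unique ?_
    have : (fun i => m i * evE w (TT (ue i))) = fun _ => (0 : ℝ) := by
      funext i
      rw [ev_TT_ue w hw1 i, hw]
      ring
    rw [this]
    exact hasSum_zero
  rw [map_add, ev_one w hw1, h1, add_zero]

/-- the terms of the radial difference quotient -/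
noncomputable def term (z : ℂ) (t : ℝ) (i : ℕ × ℕ) : ℝ :=
  1 / ((4 * (i.1 : ℝ) + i.2 + 1) * (i.2 + 1)) * (1 / 2) ^ (i.2 + 1) *
    (∑ k ∈ Finset.range (2 * (i.2 + 1)), t ^ k) * (t ^ (4 * i.1) * (z ^ (4 * i.1)).re)

theorem term_eq (z : ℂ) (hz : ‖z‖ ^ 2 = 1 / 2) (t : ℝ) (ht0 : 0 ≤ t) (ht1 : t ≤ 1)
    (i : ℕ × ℕ) : evE (t * z) (TT (ue i)) = (1 - t) * term z t i := by
  have hz1 : ‖z‖ ≤ 1 := by nlinarith [norm_nonneg z]
  have hn : ‖(t : ℂ) * z‖ = t * ‖z‖ := by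
    rw [norm_mul, Complex.norm_real, Real.norm_eq_abs, abs_of_nonneg ht0]
  have hw : ‖(t : ℂ) * z‖ ≤ 1 := by
    rw [hn]
    exact mul_le_one₀ ht1 (norm_nonneg z) hz1
  rw [ev_TT_ue _ hw i, hn, mul_pow t ‖z‖ 2, hz]
  unfold term
  have h1 : (((t : ℂ) * z) ^ (4 * i.1)).re = t ^ (4 * i.1) * (z ^ (4 * i.1)).re := by
    rw [mul_pow, ← Complex.ofReal_pow, Complex.re_ofReal_mul]
  rw [h1]
  have h2 : (1 - t) * ∑ k ∈ Finset.range (2 * (i.2 + 1)), t ^ k = 1 - t ^ (2 * (i.2 + 1)) := by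
    rw [mul_comm]
    exact geom_sum_mul_neg t _
  have h3 : ((1 : ℝ) / 2) ^ (i.2 + 1) - (t ^ 2 * (1 / 2)) ^ (i.2 + 1) =
      (1 / 2) ^ (i.2 + 1) * ((1 - t) * ∑ k ∈ Finset.range (2 * (i.2 + 1)), t ^ k) := by
    rw [h2, mul_pow, ← pow_mul]
    ring
  rw [h3]
  ring

theorem term_bd (z : ℂ) (hz : ‖z‖ ≤ 1) (t : ℝ) (ht0 : 0 ≤ t) (ht1 : t ≤ 1) (i : ℕ × ℕ) :
    |term z t i| ≤ 1 := by
  have h4 : |(z ^ (4 * i.1)).re| ≤ 1 := (Complex.abs_re_le_norm _).trans (by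
      rw [norm_pow]; exact pow_le_one₀ (norm_nonneg _) hz)
  have h5 : |t ^ (4 * i.1) * (z ^ (4 * i.1)).re| ≤ 1 := by
    rw [abs_mul, abs_of_nonneg (by positivity : (0 : ℝ) ≤ t ^ (4 * i.1))]
    exact mul_le_one₀ (pow_le_one₀ ht0 ht1) (abs_nonneg _) h4
  have h6 : ∑ k ∈ Finset.range (2 * (i.2 + 1)), t ^ k ≤ 2 * ((i.2 : ℝ) + 1) := by
    calc ∑ k ∈ Finset.range (2 * (i.2 + 1)), t ^ k
        ≤ ∑ k ∈ Finset.range (2 * (i.2 + 1)), (1 : ℝ) :=
          Finset.sum_le_sum fun k _ => pow_le_one₀ ht0 ht1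
      _ = 2 * ((i.2 : ℝ) + 1) := by simp
  have h7 : 0 ≤ ∑ k ∈ Finset.range (2 * (i.2 + 1)), t ^ k :=
    Finset.sum_nonneg fun k _ => by positivity
  unfold term
  rw [abs_mul, abs_mul, abs_of_nonneg h7, abs_of_nonneg (by positivity :
    (0 : ℝ) ≤ 1 / ((4 * (i.1 : ℝ) + i.2 + 1) * (i.2 + 1)) * (1 / 2) ^ (i.2 + 1))]
  have h8 : 1 / ((4 * (i.1 : ℝ) + i.2 + 1) * (i.2 + 1)) * (1 / 2) ^ (i.2 + 1) *
      (∑ k ∈ Finset.range (2 * (i.2 + 1)), t ^ k) ≤ 1 := by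
    calc 1 / ((4 * (i.1 : ℝ) + i.2 + 1) * (i.2 + 1)) * (1 / 2) ^ (i.2 + 1) *
        (∑ k ∈ Finset.range (2 * (i.2 + 1)), t ^ k)
        ≤ 1 / ((4 * (i.1 : ℝ) + i.2 + 1) * (i.2 + 1)) * (1 / 2) ^ (i.2 + 1) *
          (2 * ((i.2 : ℝ) + 1)) := by gcongr
      _ = (1 / 2) ^ i.2 / (4 * (i.1 : ℝ) + i.2 + 1) := by
          rw [pow_succ]
          field_simp
      _ ≤ 1 := by
          rw [div_le_one (by positivity)]
          have h1 : ((1 : ℝ) / 2) ^ i.2 ≤ 1 := pow_le_one₀ (by norm_num) (by norm_num)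
          have h3 : (0 : ℝ) ≤ i.1 := Nat.cast_nonneg _
          have h4 : (0 : ℝ) ≤ i.2 := Nat.cast_nonneg _
          linarith
  exact mul_le_one₀ h8 (abs_nonneg _) h5

theorem term_tendsto (z : ℂ) (i : ℕ × ℕ) :
    Tendsto (fun t => term z t i) (𝓝[<] 1)
      (𝓝 ((1 / 2) ^ i.2 / (4 * (i.1 : ℝ) + i.2 + 1) * (z ^ (4 * i.1)).re)) := by
  have h1 : Continuous fun t => term z t i := by
    unfold term
    fun_prop
  have h2 : term z 1 i = (1 / 2) ^ i.2 / (4 * (i.1 : ℝ) + i.2 + 1) * (z ^ (4 * i.1)).re := by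
    unfold term
    simp only [one_pow, Finset.sum_const, Finset.card_range, nsmul_eq_mul, one_mul, mul_one]
    rw [pow_succ]
    push_cast
    field_simp
  rw [← h2]
  exact (h1.tendsto 1).mono_left nhdsWithin_le_nhds

/-- the limit functional factors through `NN` -/
theorem lim_zero (z : ℂ) (hz : ‖z‖ ≤ 1) (m : E) (hm : NN m = 0) :
    ∑' i, m i * ((1 / 2) ^ i.2 / (4 * (i.1 : ℝ) + i.2 + 1) * (z ^ (4 * i.1)).re) = 0 := by
  have hre : ∀ n : ℕ, |(z ^ (4 * n)).re| ≤ 1 := fun n => (Complex.abs_re_le_norm _).trans (by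
      rw [norm_pow]; exact pow_le_one₀ (norm_nonneg _) hz)
  have hA : ∀ n : ℕ, ‖(1 / (4 * (n : ℝ) + 1) * (z ^ (4 * n)).re : ℝ)‖ ≤ 1 := by
    intro n
    rw [norm_mul, Real.norm_eq_abs, Real.norm_eq_abs]
    have h1 : |1 / (4 * (n : ℝ) + 1)| ≤ 1 := by
      rw [abs_of_nonneg (by positivity), div_le_one (by positivity)]
      have : (0 : ℝ) ≤ n := Nat.cast_nonneg n
      linarith
    exact mul_le_one₀ h1 (abs_nonneg _) (hre n)
  have hB : ∀ i : ℕ × ℕ,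
      ‖((1 / 2) ^ i.2 / (4 * (i.1 : ℝ) + i.2 + 1) * (z ^ (4 * i.1)).re : ℝ)‖ ≤ 1 := by
    intro i
    rw [norm_mul, Real.norm_eq_abs, Real.norm_eq_abs]
    have h1 : |(1 / 2) ^ i.2 / (4 * (i.1 : ℝ) + i.2 + 1)| ≤ 1 := by
      rw [abs_of_nonneg (by positivity), div_le_one (by positivity)]
      have h1 : ((1 : ℝ) / 2) ^ i.2 ≤ 1 := pow_le_one₀ (by norm_num) (by norm_num)
      have h3 : (0 : ℝ) ≤ i.1 := Nat.cast_nonneg _
      have h4 : (0 : ℝ) ≤ i.2 := Nat.cast_nonneg _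
      linarith
    exact mul_le_one₀ h1 (abs_nonneg _) (hre _)
  have h1 : (lift (fun n : ℕ => (1 / (4 * (n : ℝ) + 1) * (z ^ (4 * n)).re : ℝ)) 1 hA).comp NN =
      lift (fun i : ℕ × ℕ =>
        ((1 / 2) ^ i.2 / (4 * (i.1 : ℝ) + i.2 + 1) * (z ^ (4 * i.1)).re : ℝ)) 1 hB := by
    refine L1.ext_ue fun i => ?_
    rw [lift_ue]
    show (lift (fun n : ℕ => (1 / (4 * (n : ℝ) + 1) * (z ^ (4 * n)).re : ℝ)) 1 hA) (NN (ue i)) = _
    unfold NN
    rw [lift_ue, map_smul, lift_ue, smul_eq_mul]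
    field_simp
  have h2 := congrArg (fun A => A m) h1
  simp only [ContinuousLinearMap.comp_apply, hm, map_zero] at h2
  rw [lift_apply] at h2
  exact h2.symm

theorem bdv : S_TC → S_LAPL → S_BDV := by
  intro _ hL m hm z hz
  have hz1 : ‖z‖ < 1 := by nlinarith [norm_nonneg z]
  refine ⟨val m z hz, ?_⟩
  set u : ℂ → ℝ := fun w => evE w (ue (0, 0) + TT m) with hu
  have hdiff : DifferentiableAt ℝ u z := by
    have h1 := (hL m).1
    have hzb : z ∈ Metric.ball (0 : ℂ) 1 := by simpa using hz1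
    exact ((h1.contDiffAt (Metric.isOpen_ball.mem_nhds hzb)).differentiableAt (by norm_num))
  have hfd := hdiff.hasFDerivAt
  have hz0 : z ≠ 0 := by
    intro h
    rw [h] at hz
    norm_num at hz
  -- the tangential derivative
  have htan : fderiv ℝ u z (z * Complex.I) = 0 := by
    have hc : HasDerivAt (fun s : ℝ => z * Complex.exp (s * Complex.I)) (z * Complex.I) 0 := by
      have h1 : HasDerivAt (fun s : ℝ => ((s : ℂ)) * Complex.I) (1 * Complex.I) 0 :=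
        (Complex.ofRealCLM.hasDerivAt (x := (0 : ℝ))).mul_const Complex.I
      have h2 := h1.cexp.const_mul z
      simpa using h2
    have hfd' : HasFDerivAt u (fderiv ℝ u z) (z * Complex.exp (((0 : ℝ) : ℂ) * Complex.I)) := by
      simpa using hfd
    have h3 := hfd'.comp_hasDerivAt (0 : ℝ) hc
    have h4 : (u ∘ fun s : ℝ => z * Complex.exp (s * Complex.I)) = fun _ => (1 : ℝ) := by
      funext s
      refine val m _ ?_
      rw [norm_mul, Complex.norm_exp_ofReal_mul_I, mul_one]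
      exact hz
    rw [h4] at h3
    exact (h3.unique (hasDerivAt_const _ _))
  -- the radial derivative
  have hrad : fderiv ℝ u z z = 0 := by
    have hc : HasDerivAt (fun s : ℝ => (s : ℂ) * z) (1 * z) 1 :=
      (Complex.ofRealCLM.hasDerivAt (x := (1 : ℝ))).mul_const z
    rw [one_mul] at hc
    have hfd' : HasFDerivAt u (fderiv ℝ u z) ((((1 : ℝ) : ℂ)) * z) := by
      simpa using hfd
    have h3 := hfd'.comp_hasDerivAt (1 : ℝ) hc
    have h4 := (hasDerivAt_iff_tendsto_slope.1 h3).mono_left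
      (nhdsWithin_mono (1 : ℝ) (fun s (hs : s < 1) => hs.ne) : 𝓝[<] (1 : ℝ) ≤ _)
    have h5 : Tendsto (fun t => -∑' i, m i * term z t i) (𝓝[<] 1)
        (𝓝 (-∑' i, m i * ((1 / 2) ^ i.2 / (4 * (i.1 : ℝ) + i.2 + 1) * (z ^ (4 * i.1)).re))) := by
      refine Tendsto.neg ?_
      refine tendsto_tsum_of_dominated_convergence (bound := fun i => |m i|) (L1.summable m)
        (fun i => (term_tendsto z i).const_mul _) ?_
      filter_upwards [Ioo_mem_nhdsLT (show (0 : ℝ) < 1 by norm_num)] with t ht i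
      rw [norm_mul, Real.norm_eq_abs, Real.norm_eq_abs]
      have := term_bd z hz1.le t ht.1.le ht.2.le i
      calc |m i| * |term z t i| ≤ |m i| * 1 := by gcongr
        _ = |m i| := mul_one _
    rw [lim_zero z hz1.le m hm, neg_zero] at h5
    refine tendsto_nhds_unique h4 (h5.congr' ?_)
    filter_upwards [Ioo_mem_nhdsLT (show (0 : ℝ) < 1 by norm_num)] with t ht
    have ht1 : ‖(t : ℂ) * z‖ ≤ 1 := by
      rw [norm_mul, Complex.norm_real, Real.norm_eq_abs, abs_of_pos ht.1]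
      exact mul_le_one₀ ht.2.le (norm_nonneg z) hz1.le
    have e1 : u (t * z) = 1 + (1 - t) * ∑' i, m i * term z t i := by
      rw [hu]
      simp only
      rw [map_add, ev_one _ ht1, ← (ev_TT (t * z) m).tsum_eq, ← tsum_mul_left]
      congr 1
      refine tsum_congr fun i => ?_
      rw [term_eq z hz t ht.1.le ht.2.le i]
      ring
    have e2 : u ((((1 : ℝ) : ℂ)) * z) = 1 := by
      rw [Complex.ofReal_one, one_mul]
      exact val m z hz
    rw [slope_def_field]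
    simp only [Function.comp_apply]
    rw [e1, e2]
    have : t - 1 ≠ 0 := by linarith [ht.2]
    field_simp
    ring
  ext h
  have e : h = ((h / z).re : ℝ) • z + ((h / z).im : ℝ) • (z * Complex.I) := by
    have h1 : h = (h / z) * z := by field_simp
    have h2 : (h / z) = ((h / z).re : ℂ) + ((h / z).im : ℂ) * Complex.I :=
      (Complex.re_add_im _).symm
    conv_lhs => rw [h1, h2]
    rw [Complex.real_smul, Complex.real_smul]
    ring
  rw [e, map_add, map_smul, map_smul, htan, hrad]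
  simp

end Pool.Agent.W214.HP
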